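import Pool.Agent.Y585.PY.D
import Pool.Agent.Y309.SP.A

/-!
# Pythagorean triples in colourings computed with bounded memory

For an integer `b ≥ 2` and a colouring `c` of the positive integers, the `j`-th level of `c` consists
of the functions `n ↦ c (b ^ j * n + r)` of `n ≥ 1`, for `0 ≤ r < b ^ j`.  If `c` is computed in one
pass over the base-`b` digits, in either direction, by a machine with finitely many states whose
rules depend in an arbitrary way on the position of the digit (and which may know the number of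
digits), then the number of different functions in a level is bounded.

1. For all `b, w, k, K` there is `M` such that every colouring with `k` colours, all of whose levels
   `j ≤ M` have at most `w` elements, has a monochromatic Pythagorean triple in `(K, b ^ M)`.
2. Hence all colourings computed in this way have arbitrarily large monochromatic Pythagorean
   triples.

Method.  Words act on the levels.  A pigeonhole argument over the scales gives a long window of
positions in which all words have rank at least `r`, while at every position some word of a bounded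
length `H` has rank at most `r`.  The triples are `4 q b^k (1 + b^(4k))`,
`4 q (1 + b^(4k))^2 ∓ q b^(2k)`, times a power of `b`; the digits of `4 q` occur at the positions
`a + k`, `a + 5 k` in the first number and at `a`, `a + 8 k` in the other two.  The Hales-Jewett theorem
gives `a, k` for which `4 q` contains words of rank `r` for these four positions in many windows at
once, and for which the kernels and the images of the three words agree in all the windows.  The
remaining differences are bijections, and they are removed by a pigeonhole argument over the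
windows.

The definition of `Computed` and the proof that such colourings have bounded levels are those of
helper309 (`Pool/Agent/Results/MP_3972d6_co/BoundedMemory.lean`).
-/

set_option autoImplicit false

namespace Pool.Agent.Results.MP_0f91f8_co.BoundedMemory

/-- The `j`-th level of `c`: the functions `n ↦ c (b ^ j * n + r)` of the positive integer `n`
(written here with `n + 1`, `n ≥ 0`, in place of `n`), for `0 ≤ r < b ^ j`. -/
def level (b : ℕ) {κ : Type} (c : ℕ → κ) (j : ℕ) : Set (ℕ → κ) :=
  {f | ∃ r, r < b ^ j ∧ f = fun n => c (b ^ j * (n + 1) + r)}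

/-- The state reached from `q` after reading the digits of `N` in base `b` at the positions
`0, 1, …, v - 1`, in this order; the rule used at the position `i` is `step i`. -/
def upRun (b : ℕ) {Q : Type} (step : ℕ → Q → ℕ → Q) (N : ℕ) (q : Q) : ℕ → Q
  | 0 => q
  | v + 1 => step v (upRun b step N q v) (N / b ^ v % b)

/-- The state reached from `q` after reading the digits of `N` in base `b` at the positions
`v - 1, …, 1, 0`, in this order; the rule used at the position `i` is `step i`. -/
def downRun (b : ℕ) {Q : Type} (step : ℕ → Q → ℕ → Q) (N : ℕ) : ℕ → Q → Q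
  | 0, q => q
  | v + 1, q => downRun b step N v (step v q (N / b ^ v % b))

/-- The colour of every `N ≥ 1` is an arbitrary function of its number `L` of digits in base `b` and
of the final states of two finite machines, one reading the digits from the lowest one up and one
reading them from the highest one down (its initial state may depend on `L`); all the rules may
depend on the position of the digit. -/
def Computed (b : ℕ) {κ : Type} (c : ℕ → κ) : Prop :=
  ∃ (P Q : Type) (_ : Finite P) (_ : Finite Q) (up : ℕ → P → ℕ → P) (p₀ : P)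
    (down : ℕ → Q → ℕ → Q) (q₀ : ℕ → Q) (out : ℕ → P → Q → κ),
    ∀ N, 1 ≤ N → c N = out (Nat.log b N + 1) (upRun b up N p₀ (Nat.log b N + 1))
      (downRun b down N (Nat.log b N + 1) (q₀ (Nat.log b N + 1)))

section aux

open Pool.Agent.Y309.SP

theorem upRun_eq (b : ℕ) {Q : Type} (step : ℕ → Q → ℕ → Q) (N : ℕ) (q : Q) (v : ℕ) :
    upRun b step N q v = rd b step 0 v N q := by
  induction v with
  | zero => rfl
  | succ v ih =>
    change step v (upRun b step N q v) _ = step (0 + v) (rd b step 0 v N q) _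
    rw [ih, zero_add]

theorem downRun_eq (b : ℕ) {Q : Type} (step : ℕ → Q → ℕ → Q) (N : ℕ) (v : ℕ) :
    (fun q => downRun b step N v q) =
      rd b (fun i (f : Q → Q) d => fun q => f (step i q d)) 0 v N (fun q => q) := by
  induction v with
  | zero => rfl
  | succ v ih =>
    change (fun q => downRun b step N v (step v q (N / b ^ v % b))) =
      fun q => (rd b (fun i (f : Q → Q) d => fun q => f (step i q d)) 0 v N (fun q => q))
        (step (0 + v) q (N / b ^ v % b))
    rw [← ih, zero_add]

theorem rd_prod (b : ℕ) {P Q : Type} (s : ℕ → P → ℕ → P) (t : ℕ → Q → ℕ → Q) (a v N : ℕ)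
    (p : P) (q : Q) :
    rd b (fun i (z : P × Q) d => (s i z.1 d, t i z.2 d)) a v N (p, q) =
      (rd b s a v N p, rd b t a v N q) := by
  induction v with
  | zero => rfl
  | succ v ih =>
    change (s (a + v) (rd b _ a v N (p, q)).1 _, t (a + v) (rd b _ a v N (p, q)).2 _) = _
    rw [ih]
    rfl

theorem log_level {b : ℕ} (hb : 2 ≤ b) (j n r : ℕ) (hr : r < b ^ j) :
    Nat.log b (b ^ j * (n + 1) + r) = j + Nat.log b (n + 1) := by
  have h1 : b ^ Nat.log b (n + 1) ≤ n + 1 := Nat.pow_log_le_self b (by omega)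
  have h2 : n + 1 < b ^ (Nat.log b (n + 1) + 1) := Nat.lt_pow_succ_log_self (by omega) _
  apply Nat.log_eq_of_pow_le_of_lt_pow
  · rw [pow_add]
    exact (Nat.mul_le_mul_left _ h1).trans (Nat.le_add_right _ _)
  · rw [add_assoc, pow_add]
    calc b ^ j * (n + 1) + r < b ^ j * (n + 1) + b ^ j := by omega
      _ = b ^ j * (n + 1 + 1) := by ring
      _ ≤ _ := Nat.mul_le_mul_left _ h2

theorem levelBounded_of_up {b : ℕ} (hb : 2 ≤ b) {κ Q : Type} [Finite Q] {c : ℕ → κ}
    (s : ℕ → Q → ℕ → Q) (q₀ : Q) (out : ℕ → Q → κ)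
    (hc : ∀ N, 1 ≤ N → c N = out (Nat.log b N + 1) (rd b s 0 (Nat.log b N + 1) N q₀)) :
    ∃ w : ℕ, ∀ j, (level b c j).ncard ≤ w := by
  refine ⟨Nat.card Q, fun j => ?_⟩
  let G : Q → ℕ → κ := fun q n => out (j + Nat.log b (n + 1) + 1)
    (rd b s j (Nat.log b (n + 1) + 1) (n + 1) q)
  have hsub : level b c j ⊆ G '' Set.univ := by
    rintro f ⟨r, hr, rfl⟩
    refine ⟨rd b s 0 j r q₀, Set.mem_univ _, ?_⟩
    funext n
    have hpos : 0 < b ^ j := pow_pos (by omega) _
    have hN : 1 ≤ b ^ j * (n + 1) + r := by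
      have : 0 < b ^ j * (n + 1) := Nat.mul_pos hpos (Nat.succ_pos _)
      omega
    rw [hc _ hN, log_level hb j n r hr, add_assoc]
    have hR := reader_rd (show 0 < b by omega) s
    rw [hR.add, zero_add, add_comm (b ^ j * (n + 1)) r, Nat.add_mul_div_left _ _ hpos,
      Nat.div_eq_of_lt hr, zero_add, hR.mod 0 j j r (n + 1) q₀ le_rfl]
    rfl
  calc (level b c j).ncard ≤ (G '' Set.univ).ncard :=
        Set.ncard_le_ncard hsub ((Set.toFinite _).image _)
    _ ≤ (Set.univ : Set Q).ncard := Set.ncard_image_le (Set.toFinite _)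
    _ = Nat.card Q := Set.ncard_univ Q

end aux

theorem levelBounded_of_computed {b : ℕ} (hb : 2 ≤ b) {κ : Type} {c : ℕ → κ}
    (hc : Computed b c) : ∃ w : ℕ, ∀ j, (level b c j).ncard ≤ w := by
  obtain ⟨P, Q, _, _, up, p₀, down, q₀, out, h⟩ := hc
  refine levelBounded_of_up hb (Q := P × (Q → Q))
    (fun i z d => (up i z.1 d, fun q => z.2 (down i q d))) (p₀, fun q => q)
    (fun L z => out L z.1 (z.2 (q₀ L))) ?_
  intro N hN
  rw [h N hN]
  have e := rd_prod b up (fun i (f : Q → Q) d => fun q => f (down i q d)) 0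
    (Nat.log b N + 1) N p₀ (fun q => q)
  rw [e, ← downRun_eq, ← upRun_eq]

section main

open Pool.Agent.Y585.PY

/-- The levels, with the value at `0`. -/
def level0 (b : ℕ) {κ : Type} (c : ℕ → κ) (j : ℕ) : Set (ℕ → κ) :=
  {f | ∃ r < b ^ j, f = T b j r c}

theorem level0_finite (b : ℕ) {κ : Type} (c : ℕ → κ) (j : ℕ) : (level0 b c j).Finite := by
  refine ((Set.finite_Iio (b ^ j)).image fun r => T b j r c).subset ?_
  rintro _ ⟨r, hr, rfl⟩
  exact ⟨r, hr, rfl⟩

theorem level_finite (b : ℕ) {κ : Type} (c : ℕ → κ) (j : ℕ) : (level b c j).Finite := by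
  refine ((Set.finite_Iio (b ^ j)).image fun r => fun n => c (b ^ j * (n + 1) + r)).subset ?_
  rintro _ ⟨r, hr, rfl⟩
  exact ⟨r, hr, rfl⟩

theorem level0_card {b : ℕ} {κ : Type} [Finite κ] {c : ℕ → κ} {j k w : ℕ} (hk : Nat.card κ ≤ k)
    (hw : (level b c j).ncard ≤ w) : (level0 b c j).ncard ≤ k * w := by
  have hinj : Set.InjOn (fun f : ℕ → κ => (f 0, fun n => f (n + 1))) (level0 b c j) := by
    intro f _ g _ hfg
    have h0 : f 0 = g 0 := congrArg Prod.fst hfg
    have h1 : (fun n => f (n + 1)) = fun n => g (n + 1) := congrArg Prod.snd hfg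
    funext n
    rcases n with _ | n
    · exact h0
    · exact congrFun h1 n
  rw [← hinj.ncard_image]
  have hsub : (fun f : ℕ → κ => (f 0, fun n => f (n + 1))) '' level0 b c j ⊆
      (Set.univ : Set κ) ×ˢ level b c j := by
    rintro _ ⟨f, ⟨r, hr, rfl⟩, rfl⟩
    refine ⟨Set.mem_univ _, r, hr, ?_⟩
    funext n
    rfl
  calc _ ≤ ((Set.univ : Set κ) ×ˢ level b c j).ncard :=
        Set.ncard_le_ncard hsub (Set.finite_univ.prod (level_finite b c j))
    _ = (Set.univ : Set κ).ncard * (level b c j).ncard := Set.ncard_prod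
    _ ≤ k * w := Nat.mul_le_mul (by rw [Set.ncard_univ]; exact hk) hw

theorem sys_level {b : ℕ} {κ : Type} (c : ℕ → κ) {K w G : ℕ}
    (h : ∀ j ≤ K + G, (level0 b c j).ncard ≤ w) : Sys b w G (fun j => level0 b c (K + j)) where
  map := by
    rintro j l D hD _ ⟨r, hr, rfl⟩
    refine ⟨b ^ (K + j) * D + r, ?_, ?_⟩
    · rw [← add_assoc, pow_add b (K + j) l]
      have : b ^ (K + j) * D + b ^ (K + j) ≤ b ^ (K + j) * b ^ l := by
        calc b ^ (K + j) * D + b ^ (K + j) = b ^ (K + j) * (D + 1) := by ring
          _ ≤ _ := Nat.mul_le_mul_left _ hD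
      omega
    · rw [T_T, add_assoc]
  fin := fun j => level0_finite b c _
  card := fun j hj => h _ (by omega)

end main

/-- Colourings computed with bounded memory have monochromatic Pythagorean triples. -/
theorem result :
    -- finite form: for colourings with at most `k` colours and small levels up to `M`
    (∀ b w k K : ℕ, 2 ≤ b → ∃ M : ℕ, ∀ (κ : Type) [Finite κ] (c : ℕ → κ), Nat.card κ ≤ k →
      (∀ j ≤ M, (level b c j).ncard ≤ w) →
      ∃ x y z : ℕ, K < x ∧ K < y ∧ K < z ∧ x < b ^ M ∧ y < b ^ M ∧ z < b ^ M ∧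
        x ^ 2 + y ^ 2 = z ^ 2 ∧ c x = c y ∧ c y = c z) ∧
    -- colourings computed by finite machines with rules that depend on the position
    (∀ (b : ℕ) (κ : Type) [Finite κ] (c : ℕ → κ), 2 ≤ b → Computed b c →
      ∀ K : ℕ, ∃ x y z : ℕ, K < x ∧ K < y ∧ K < z ∧
        x ^ 2 + y ^ 2 = z ^ 2 ∧ c x = c y ∧ c y = c z) := by
  have h1 : ∀ b w k K : ℕ, 2 ≤ b → ∃ M : ℕ, ∀ (κ : Type) [Finite κ] (c : ℕ → κ),
      Nat.card κ ≤ k → (∀ j ≤ M, (level b c j).ncard ≤ w) →
      ∃ x y z : ℕ, K < x ∧ K < y ∧ K < z ∧ x < b ^ M ∧ y < b ^ M ∧ z < b ^ M ∧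
        x ^ 2 + y ^ 2 = z ^ 2 ∧ c x = c y ∧ c y = c z := by
    intro b w k K hb
    obtain ⟨G, hG⟩ := Pool.Agent.Y585.PY.main.{0} b hb (k * w)
    refine ⟨K + G, ?_⟩
    intro κ _ c hk hw
    have hsys := sys_level (b := b) c (K := K) (G := G) (w := k * w)
      fun j hj => level0_card hk (hw j hj)
    obtain ⟨x, y, z, hx, hy, hz, hxb, hyb, hzb, hp, hf⟩ := hG κ _ hsys
    have hbK : K < b ^ K := Nat.lt_pow_self (by omega)
    have hpow : 0 < b ^ K := by omega
    have hmem : Pool.Agent.Y585.PY.T b K 0 c ∈ level0 b c (K + 0) := ⟨0, pow_pos (by omega) _, rfl⟩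
    obtain ⟨e1, e2⟩ := hf _ hmem
    have hval : ∀ v, Pool.Agent.Y585.PY.T b G v (Pool.Agent.Y585.PY.T b K 0 c) 0 =
        c (b ^ K * v) := by
      intro v
      simp [Pool.Agent.Y585.PY.T]
    have e1' := congrFun e1 0
    have e2' := congrFun e2 0
    rw [hval, hval] at e1' e2'
    have hlt : ∀ v, v < b ^ G → b ^ K * v < b ^ (K + G) := by
      intro v hv
      rw [pow_add]
      exact Nat.mul_lt_mul_of_pos_left hv hpow
    have hgt : ∀ v, 0 < v → K < b ^ K * v := fun v hv =>
      hbK.trans_le (Nat.le_mul_of_pos_right _ hv)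
    refine ⟨b ^ K * x, b ^ K * y, b ^ K * z, hgt x hx, hgt y hy, hgt z hz, hlt x hxb, hlt y hyb,
      hlt z hzb, ?_, e1', e2'⟩
    calc (b ^ K * x) ^ 2 + (b ^ K * y) ^ 2 = (b ^ K) ^ 2 * (x ^ 2 + y ^ 2) := by ring
      _ = (b ^ K * z) ^ 2 := by rw [hp]; ring
  refine ⟨h1, ?_⟩
  intro b κ _ c hb hc K
  obtain ⟨w, hw⟩ := levelBounded_of_computed hb hc
  obtain ⟨M, hM⟩ := h1 b w (Nat.card κ) K hb
  obtain ⟨x, y, z, hx, hy, hz, _, _, _, hp, e1, e2⟩ := hM κ c le_rfl fun j _ => hw j
  exact ⟨x, y, z, hx, hy, hz, hp, e1, e2⟩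

end Pool.Agent.Results.MP_0f91f8_co.BoundedMemory
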